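import Mathlib

/-!
# A generating set of the kernel congruence of the factorization map

`g : Fin (k+1) → ℕ` strictly increasing and positive, `p = g 0`, `q = g (last k)`.
`B` is the set of elements `n` of the semigroup with `n - p` and `n - q` outside of it.
We construct a generating set of the kernel congruence with at most `k (|B| + 1) / 2` elements.
-/

set_option autoImplicit false

open Finset

namespace Pool.Agent.Lib.MPb3fe82

variable {k : ℕ}

/-- The factorization map. -/
def phi (g : Fin (k + 1) → ℕ) : (Fin (k + 1) → ℕ) →+ ℕ where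
  toFun a := ∑ i, a i * g i
  map_zero' := by simp
  map_add' a b := by simp [add_mul, sum_add_distrib]

theorem phi_apply (g a : Fin (k + 1) → ℕ) : phi g a = ∑ i, a i * g i := rfl

/-- Membership in the semigroup. -/
def InG (g : Fin (k + 1) → ℕ) (n : ℕ) : Prop := ∃ a, phi g a = n

/-- `n ∈ Γ`, `n - g₀ ∉ Γ`, `n - g_k ∉ Γ`. -/
def IsB (g : Fin (k + 1) → ℕ) (n : ℕ) : Prop :=
  InG g n ∧ (∀ m, InG g m → m + g 0 ≠ n) ∧ (∀ m, InG g m → m + g (Fin.last k) ≠ n)

/-- Lexicographically least factorization of an element of `B`. -/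
def IsN (g a : Fin (k + 1) → ℕ) : Prop :=
  IsB g (phi g a) ∧ ∀ b, phi g b = phi g a → toLex a ≤ toLex b

/-- Unit vector. -/
abbrev ee (i : Fin (k + 1)) : Fin (k + 1) → ℕ := Pi.single i 1

/-- Minimal interior non-members of `N`. -/
def IsC (g c : Fin (k + 1) → ℕ) : Prop :=
  c 0 = 0 ∧ c (Fin.last k) = 0 ∧ ¬ IsN g c ∧ ∀ i, c i ≠ 0 → IsN g (c - ee i)

/-- `n - g₀ ∈ Γ`, `n - g_k ∈ Γ`, `n - g₀ - g_k ∉ Γ`. -/
def IsE (g : Fin (k + 1) → ℕ) (n : ℕ) : Prop :=
  (∃ m, InG g m ∧ m + g 0 = n) ∧ (∃ m, InG g m ∧ m + g (Fin.last k) = n) ∧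
    ∀ m, InG g m → m + g 0 + g (Fin.last k) ≠ n

section

variable (g : Fin (k + 1) → ℕ)

theorem phi_ee (i : Fin (k + 1)) : phi g (ee i) = g i := by
  rw [phi_apply, Finset.sum_eq_single i]
  · simp
  · intro j _ hj
    simp [Pi.single_eq_of_ne hj]
  · simp

theorem InG_zero : InG g 0 := ⟨0, map_zero _⟩

theorem InG_g (i : Fin (k + 1)) : InG g (g i) := ⟨ee i, phi_ee g i⟩

theorem InG_add {m n : ℕ} (hm : InG g m) (hn : InG g n) : InG g (m + n) := by
  obtain ⟨a, rfl⟩ := hm
  obtain ⟨b, rfl⟩ := hn
  exact ⟨a + b, map_add _ _ _⟩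

theorem InG_mul {m : ℕ} (hm : InG g m) (j : ℕ) : InG g (j * m) := by
  induction j with
  | zero => simpa using InG_zero g
  | succ j ih => rw [add_mul, one_mul]; exact InG_add g ih hm

theorem sub_ee_add {a : Fin (k + 1) → ℕ} {i : Fin (k + 1)} (hi : a i ≠ 0) :
    a - ee i + ee i = a := by
  funext j
  by_cases hj : j = i
  · subst hj
    simp only [Pi.add_apply, Pi.sub_apply, Pi.single_eq_same]
    omega
  · simp [Pi.single_eq_of_ne hj]

theorem phi_sub {a : Fin (k + 1) → ℕ} {i : Fin (k + 1)} (hi : a i ≠ 0) :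
    phi g (a - ee i) + g i = phi g a := by
  conv_rhs => rw [← sub_ee_add hi]
  rw [map_add, phi_ee]

theorem IsB.zero_eq {a : Fin (k + 1) → ℕ} (h : IsB g (phi g a)) : a 0 = 0 := by
  by_contra h0
  exact h.2.1 _ ⟨a - ee 0, rfl⟩ (phi_sub g h0)

theorem IsB.last_eq {a : Fin (k + 1) → ℕ} (h : IsB g (phi g a)) : a (Fin.last k) = 0 := by
  by_contra h0
  exact h.2.2 _ ⟨a - ee (Fin.last k), rfl⟩ (phi_sub g h0)

theorem IsB.of_add {m n : ℕ} (h : IsB g (m + n)) (hm : InG g m) (hn : InG g n) : IsB g m := by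
  refine ⟨hm, ?_, ?_⟩
  · intro t ht hh
    apply h.2.1 (t + n) (InG_add g ht hn)
    omega
  · intro t ht hh
    apply h.2.2 (t + n) (InG_add g ht hn)
    omega

theorem IsN.of_add {a c : Fin (k + 1) → ℕ} (h : IsN g (a + c)) : IsN g a := by
  have hB := h.1
  rw [map_add] at hB
  refine ⟨IsB.of_add g hB ⟨a, rfl⟩ ⟨c, rfl⟩, ?_⟩
  intro b hb
  have h1 := h.2 (b + c) (by rw [map_add, map_add, hb])
  rw [toLex_add, toLex_add] at h1
  exact le_of_add_le_add_right h1

theorem IsN.of_le {a b : Fin (k + 1) → ℕ} (h : IsN g b) (hab : a ≤ b) : IsN g a := by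
  have : a + (b - a) = b := by
    funext i
    have h1 : a i ≤ b i := hab i
    simp only [Pi.add_apply, Pi.sub_apply]
    omega
  rw [← this] at h
  exact h.of_add

theorem IsN_zero (hg0 : 0 < g 0) (hgl : 0 < g (Fin.last k)) : IsN g 0 := by
  refine ⟨?_, ?_⟩
  · rw [map_zero]
    refine ⟨InG_zero g, ?_, ?_⟩
    · intro m _; omega
    · intro m _; omega
  · intro b _
    rw [toLex_zero]
    by_contra hlt
    rw [not_le] at hlt
    obtain ⟨i, _, hi⟩ := hlt
    exact absurd hi (Nat.not_lt_zero _)

/-- Every element of `B` has a factorization in `N`. -/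
theorem exists_N {n : ℕ} (h : IsB g n) : ∃ a, phi g a = n ∧ IsN g a := by
  obtain ⟨a, ha⟩ := h.1
  have hwf : WellFounded ((· < ·) : Lex (Fin (k + 1) → ℕ) → Lex (Fin (k + 1) → ℕ) → Prop) :=
    IsWellFounded.wf
  obtain ⟨m, hm, hmin⟩ := hwf.has_min {x : Lex (Fin (k + 1) → ℕ) | phi g (ofLex x) = n}
    ⟨toLex a, ha⟩
  have hm' : phi g (ofLex m) = n := hm
  refine ⟨ofLex m, hm', ?_, ?_⟩
  · rw [hm']; exact h
  · intro b hb
    rw [hm'] at hb
    exact not_lt.1 (hmin (toLex b) hb)

theorem IsN.unique {a b : Fin (k + 1) → ℕ} (ha : IsN g a) (hb : IsN g b)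
    (h : phi g a = phi g b) : a = b := by
  have h1 := ha.2 b h.symm
  have h2 := hb.2 a h
  exact toLex.injective (le_antisymm h1 h2)

/-- Every interior non-member of `N` is above a minimal one. -/
theorem exists_C_le {c : Fin (k + 1) → ℕ} (h0 : c 0 = 0) (hl : c (Fin.last k) = 0)
    (hc : ¬ IsN g c) : ∃ c0 f, IsC g c0 ∧ c0 + f = c := by
  -- induction on the total degree
  induction hn : ∑ i, c i using Nat.strong_induction_on generalizing c with
  | _ n ih =>
    by_cases hC : IsC g c
    · exact ⟨c, 0, hC, by simp⟩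
    · have : ∃ i, c i ≠ 0 ∧ ¬ IsN g (c - ee i) := by
        by_contra hcon
        push Not at hcon
        exact hC ⟨h0, hl, hc, hcon⟩
      obtain ⟨i, hi, hiN⟩ := this
      have hlt : ∑ j, (c - ee i) j < n := by
        rw [← hn]
        apply Finset.sum_lt_sum
        · intro j _
          simp only [Pi.sub_apply]; omega
        · refine ⟨i, mem_univ _, ?_⟩
          simp only [Pi.sub_apply, Pi.single_eq_same]; omega
      obtain ⟨c0, f, hc0, hf⟩ := ih _ hlt (c := c - ee i)
        (by simp only [Pi.sub_apply]; omega) (by simp only [Pi.sub_apply]; omega) hiN rfl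
      refine ⟨c0, f + ee i, hc0, ?_⟩
      rw [← add_assoc, hf, sub_ee_add hi]

/-- Canonical factorizations. -/
def Canon (x : Fin (k + 1) → ℕ) : Prop := IsN g x ∨ x 0 ≠ 0 ∨ x (Fin.last k) ≠ 0

theorem exists_canon (c : Fin (k + 1) → ℕ) : ∃ r, phi g r = phi g c ∧ Canon g r := by
  by_cases hB : IsB g (phi g c)
  · obtain ⟨a, ha, haN⟩ := exists_N g hB
    exact ⟨a, ha, Or.inl haN⟩
  · unfold IsB at hB
    push Not at hB
    by_cases h1 : ∀ m, InG g m → m + g 0 ≠ phi g c
    · obtain ⟨m, ⟨a, rfl⟩, hm2⟩ := hB ⟨c, rfl⟩ h1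
      refine ⟨a + ee (Fin.last k), ?_, Or.inr (Or.inr ?_)⟩
      · rw [map_add, phi_ee, hm2]
      · simp
    · push Not at h1
      obtain ⟨m, ⟨a, rfl⟩, hm2⟩ := h1
      refine ⟨a + ee 0, ?_, Or.inr (Or.inl ?_)⟩
      · rw [map_add, phi_ee, hm2]
      · simp

/-- The key statement: a congruence containing enough relations contains the kernel. -/
theorem main_cong (hpos : ∀ i, 0 < g i) (r : (Fin (k + 1) → ℕ) → (Fin (k + 1) → ℕ))
    (hr : ∀ c, phi g (r c) = phi g c ∧ Canon g (r c))
    (K : AddCon (Fin (k + 1) → ℕ)) (hK1 : ∀ c, IsC g c → K c (r c))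
    (hK2 : ∀ n, IsE g n → ∃ x y, phi g x = n ∧ phi g y = n ∧ x 0 ≠ 0 ∧ y (Fin.last k) ≠ 0 ∧ K x y) :
    ∀ a b, phi g a = phi g b → K a b := by
  have main : ∀ n, ∀ a b, phi g a = n → phi g b = n → K a b := by
    intro n
    induction n using Nat.strong_induction_on with
    | _ n ih =>
      have s1 : ∀ a b i, phi g a = n → phi g b = n → a i ≠ 0 → b i ≠ 0 → K a b := by
        intro a b i ha hb hai hbi
        have h1 := phi_sub g hai
        have h2 := phi_sub g hbi
        have h3 := hpos i
        have h4 : K (a - ee i) (b - ee i) :=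
          ih (phi g (a - ee i)) (by omega) _ _ rfl (by omega)
        have h5 := K.add h4 (K.refl (ee i))
        rwa [sub_ee_add hai, sub_ee_add hbi] at h5
      have s2 : ∀ c : Lex (Fin (k + 1) → ℕ), phi g (ofLex c) = n →
          ∃ x, phi g x = n ∧ Canon g x ∧ K (ofLex c) x := by
        intro c
        have hwf : WellFounded
            ((· < ·) : Lex (Fin (k + 1) → ℕ) → Lex (Fin (k + 1) → ℕ) → Prop) :=
          IsWellFounded.wf
        induction c using hwf.induction with
        | _ c ihc =>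
          intro hc
          by_cases hcan : Canon g (ofLex c)
          · exact ⟨ofLex c, hc, hcan, K.refl _⟩
          · have hcan' := hcan
            unfold Canon at hcan'
            push Not at hcan'
            obtain ⟨hnN, h0, hl⟩ := hcan'
            obtain ⟨c0, f, hc0, hf⟩ := exists_C_le g h0 hl hnN
            have hKx : K (ofLex c) (r c0 + f) := by
              rw [← hf]
              exact K.add (hK1 c0 hc0) (K.refl f)
            have hphi : phi g (r c0 + f) = n := by
              rw [map_add, (hr c0).1, ← map_add, hf, hc]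
            rcases (hr c0).2 with hN | h1 | h1
            · have hle := hN.2 c0 (hr c0).1.symm
              have hne : r c0 ≠ c0 := by
                intro h
                rw [h] at hN
                exact hc0.2.2.1 hN
              have hlt : toLex (r c0) < toLex c0 :=
                lt_of_le_of_ne hle (fun h => hne (toLex.injective h))
              have hlt2 : toLex (r c0 + f) < c := by
                have : c = toLex (c0 + f) := by rw [hf]; rfl
                rw [this, toLex_add, toLex_add]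
                exact add_lt_add_left hlt _
              obtain ⟨x, hx1, hx2, hx3⟩ := ihc (toLex (r c0 + f)) hlt2 hphi
              exact ⟨x, hx1, hx2, K.trans hKx hx3⟩
            · exact ⟨_, hphi, Or.inr (Or.inl (by simp only [Pi.add_apply]; omega)), hKx⟩
            · exact ⟨_, hphi, Or.inr (Or.inr (by simp only [Pi.add_apply]; omega)), hKx⟩
      have s3 : ∀ x y, phi g x = n → phi g y = n → x 0 ≠ 0 → y (Fin.last k) ≠ 0 → K x y := by
        intro x y hx hy hx0 hy0
        by_cases hE : IsE g n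
        · obtain ⟨x', y', hx', hy', hx0', hy0', hxy⟩ := hK2 n hE
          exact K.trans (s1 x x' 0 hx hx' hx0 hx0')
            (K.trans hxy (s1 y' y (Fin.last k) hy' hy hy0' hy0))
        · have h1 : ∃ m, InG g m ∧ m + g 0 = n :=
            ⟨_, ⟨x - ee 0, rfl⟩, by rw [phi_sub g hx0, hx]⟩
          have h2 : ∃ m, InG g m ∧ m + g (Fin.last k) = n :=
            ⟨_, ⟨y - ee (Fin.last k), rfl⟩, by rw [phi_sub g hy0, hy]⟩
          have h3 : ∃ m, InG g m ∧ m + g 0 + g (Fin.last k) = n := by
            by_contra hcon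
            push Not at hcon
            exact hE ⟨h1, h2, hcon⟩
          obtain ⟨m, ⟨z, hz⟩, hm⟩ := h3
          have hw : phi g (z + ee 0 + ee (Fin.last k)) = n := by
            rw [map_add, map_add, phi_ee, phi_ee, hz, hm]
          refine K.trans (s1 x _ 0 hx hw hx0 ?_) (s1 _ y (Fin.last k) hw hy ?_ hy0)
          · simp
          · simp
      have s4 : ∀ x y, phi g x = n → phi g y = n → Canon g x → Canon g y → K x y := by
        intro x y hx hy hxc hyc
        rcases hxc with hxN | hx0 | hx0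
        · have hB := hxN.1
          rw [hx, ← hy] at hB
          rcases hyc with hyN | hy0 | hy0
          · rw [IsN.unique g hxN hyN (hx.trans hy.symm)]
            exact K.refl _
          · exact absurd (IsB.zero_eq g hB) hy0
          · exact absurd (IsB.last_eq g hB) hy0
        · rcases hyc with hyN | hy0 | hy0
          · have hB := hyN.1
            rw [hy, ← hx] at hB
            exact absurd (IsB.zero_eq g hB) hx0
          · exact s1 x y 0 hx hy hx0 hy0
          · exact s3 x y hx hy hx0 hy0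
        · rcases hyc with hyN | hy0 | hy0
          · have hB := hyN.1
            rw [hy, ← hx] at hB
            exact absurd (IsB.last_eq g hB) hx0
          · exact K.symm (s3 y x hy hx hy0 hx0)
          · exact s1 x y (Fin.last k) hx hy hx0 hy0
      intro a b ha hb
      obtain ⟨x, hx1, hx2, hx3⟩ := s2 (toLex a) ha
      obtain ⟨y, hy1, hy2, hy3⟩ := s2 (toLex b) hb
      exact K.trans hx3 (K.trans (s4 x y hx1 hy1 hx2 hy2) (K.symm hy3))
  intro a b h
  exact main _ a b h rfl

end

end Pool.Agent.Lib.MPb3fe82
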