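import Mathlib
import Pool.Agent.Lib.MP_b3fe82_al.Pres

/-!
# Counting: finiteness of `B`, `|E| ≤ |B|`, and the double counting `2 |C| + 2 |N| ≤ k (|N| + 1)`
-/

set_option autoImplicit false

open Finset

namespace Pool.Agent.Lib.MPb3fe82

variable {k : ℕ} (g : Fin (k + 1) → ℕ)

theorem B_finite (hg0 : 0 < g 0) : {n | IsB g n}.Finite := by
  apply Set.Finite.of_injOn (f := fun n => n % g 0) (t := (Finset.range (g 0) : Set ℕ))
  · intro n _
    simp only [coe_range, Set.mem_Iio]
    exact Nat.mod_lt _ hg0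
  · have key : ∀ a b, IsB g a → IsB g b → a % g 0 = b % g 0 → ¬ a < b := by
      intro a b ha hb hab hlt
      have h1 : g 0 ∣ b - a := (Nat.modEq_iff_dvd' hlt.le).1 hab
      obtain ⟨c, hc⟩ := h1
      have hc0 : c ≠ 0 := by
        rintro rfl
        omega
      obtain ⟨c', rfl⟩ := Nat.exists_eq_succ_of_ne_zero hc0
      apply hb.2.1 (a + c' * g 0) (InG_add g ha.1 (InG_mul g (InG_g g 0) c'))
      have : g 0 * (c' + 1) = c' * g 0 + g 0 := by ring
      rw [Nat.succ_eq_add_one, this] at hc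
      omega
    intro a ha b hb hab
    rcases lt_trichotomy a b with h | h | h
    · exact absurd h (key a b ha hb hab)
    · exact h
    · exact absurd h (key b a hb ha hab.symm)
  · exact Finset.finite_toSet _

/-- For every element of `E` there is an element of `B` below it in the same class mod `g 0`. -/
theorem exists_B_of_E {n : ℕ} (hg0 : 0 < g 0) (h : IsE g n) : ∃ b j, IsB g b ∧ n = b + j * g 0 := by
  -- descend
  have desc : ∀ n, InG g n → ∃ b j, InG g b ∧ (∀ m, InG g m → m + g 0 ≠ b) ∧ n = b + j * g 0 := by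
    intro n
    induction n using Nat.strong_induction_on with
    | _ n ih =>
      intro hn
      by_cases hm : ∀ m, InG g m → m + g 0 ≠ n
      · exact ⟨n, 0, hn, hm, by simp⟩
      · push Not at hm
        obtain ⟨m, hm1, hm2⟩ := hm
        obtain ⟨b, j, hb1, hb2, hb3⟩ := ih m (by omega) hm1
        exact ⟨b, j + 1, hb1, hb2, by rw [add_mul, one_mul]; omega⟩
  obtain ⟨⟨m1, hm1, hm1'⟩, ⟨m2, hm2, hm2'⟩, h3⟩ := h
  obtain ⟨b, j, hb1, hb2, hb3⟩ := desc n (by rw [← hm1']; exact InG_add g hm1 (InG_g g 0))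
  refine ⟨b, j, ⟨hb1, hb2, ?_⟩, hb3⟩
  intro t ht hh
  have hj : j ≠ 0 := by
    rintro rfl
    simp only [zero_mul, add_zero] at hb3
    exact hb2 m1 hm1 (by omega)
  obtain ⟨j', rfl⟩ := Nat.exists_eq_succ_of_ne_zero hj
  apply h3 (t + j' * g 0) (InG_add g ht (InG_mul g (InG_g g 0) j'))
  rw [Nat.succ_eq_add_one, add_mul, one_mul] at hb3
  omega

theorem E_inj {n n' b j j' : ℕ} (hn : IsE g n) (hn' : IsE g n') (h : n = b + j * g 0)
    (h' : n' = b + j' * g 0) : ¬ j < j' := by
  intro hlt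
  obtain ⟨c, rfl⟩ : ∃ c, j' = j + (c + 1) := ⟨j' - j - 1, by omega⟩
  obtain ⟨m, hm, hm'⟩ := hn.2.1
  apply hn'.2.2 (m + c * g 0) (InG_add g hm (InG_mul g (InG_g g 0) c))
  rw [h']
  have : (j + (c + 1)) * g 0 = j * g 0 + c * g 0 + g 0 := by ring
  rw [this]
  omega

/-- The finite set `B`. -/
noncomputable def Bset (hg0 : 0 < g 0) : Finset ℕ := (B_finite g hg0).toFinset

theorem mem_Bset (hg0 : 0 < g 0) (n : ℕ) : n ∈ Bset g hg0 ↔ IsB g n := by
  simp [Bset]

theorem exists_Eset (hg0 : 0 < g 0) :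
    ∃ E : Finset ℕ, (∀ n, n ∈ E ↔ IsE g n) ∧ E.card ≤ (Bset g hg0).card := by
  classical
  have hex : ∀ n, ∃ b, IsE g n → ∃ j, IsB g b ∧ n = b + j * g 0 := by
    intro n
    by_cases h : IsE g n
    · obtain ⟨b, j, hb⟩ := exists_B_of_E g hg0 h
      exact ⟨b, fun _ => ⟨j, hb⟩⟩
    · exact ⟨0, fun h' => absurd h' h⟩
  choose β hβ using hex
  have hinj : Set.InjOn β {n | IsE g n} := by
    intro n hn n' hn' hbb
    obtain ⟨j, _, hj⟩ := hβ n hn
    obtain ⟨j', _, hj'⟩ := hβ n' hn'
    rw [← hbb] at hj'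
    have h1 := E_inj g hn hn' hj hj'
    have h2 := E_inj g hn' hn hj' hj
    have : j = j' := by omega
    rw [hj, hj', this]
  have hmaps : ∀ n, IsE g n → β n ∈ Bset g hg0 := by
    intro n hn
    rw [mem_Bset]
    obtain ⟨j, hb, _⟩ := hβ n hn
    exact hb
  have hfin : {n | IsE g n}.Finite := by
    apply Set.Finite.of_injOn (f := β) (t := (Bset g hg0 : Set ℕ)) _ hinj (Finset.finite_toSet _)
    intro n hn
    exact hmaps n hn
  refine ⟨hfin.toFinset, fun n => by simp, ?_⟩
  apply card_le_card_of_injOn β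
  · intro n hn
    have : IsE g n := by simpa using hn
    exact hmaps n this
  · intro n hn n' hn' hbb
    exact hinj (by simpa using hn) (by simpa using hn') hbb

theorem exists_Nset (hg0 : 0 < g 0) :
    ∃ N : Finset (Fin (k + 1) → ℕ), (∀ a, a ∈ N ↔ IsN g a) ∧ N.card = (Bset g hg0).card := by
  classical
  have hex : ∀ n, ∃ a, IsB g n → phi g a = n ∧ IsN g a := by
    intro n
    by_cases h : IsB g n
    · obtain ⟨a, ha⟩ := exists_N g h
      exact ⟨a, fun _ => ha⟩
    · exact ⟨0, fun h' => absurd h' h⟩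
  choose ν hν using hex
  refine ⟨(Bset g hg0).image ν, ?_, ?_⟩
  · intro a
    rw [mem_image]
    constructor
    · rintro ⟨n, hn, rfl⟩
      rw [mem_Bset] at hn
      exact (hν n hn).2
    · intro ha
      refine ⟨phi g a, (mem_Bset g hg0 _).2 ha.1, ?_⟩
      exact IsN.unique g (hν _ ha.1).2 ha (hν _ ha.1).1
  · apply card_image_of_injOn
    intro n hn n' hn' h
    have h1 := (mem_Bset g hg0 n).1 hn
    have h2 := (mem_Bset g hg0 n').1 hn'
    rw [← (hν n h1).1, ← (hν n' h2).1, h]

theorem exists_Cset (hk : 0 < k) (hg0 : 0 < g 0) (hgl : 0 < g (Fin.last k)) :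
    ∃ C : Finset (Fin (k + 1) → ℕ), (∀ a, a ∈ C ↔ IsC g a) ∧
      2 * C.card + 2 * (Bset g hg0).card ≤ k * ((Bset g hg0).card + 1) := by
  classical
  obtain ⟨N, hN, hNcard⟩ := exists_Nset g hg0
  have hN0 : (0 : Fin (k + 1) → ℕ) ∈ N := (hN 0).2 (IsN_zero g hg0 hgl)
  -- finiteness of C
  have hCne : ∀ c, IsC g c → c ≠ 0 := by
    rintro c hc rfl
    exact hc.2.2.1 (IsN_zero g hg0 hgl)
  have hsupp : ∀ c : Fin (k + 1) → ℕ, c ≠ 0 → ∃ i, c i ≠ 0 := by
    intro c hc
    by_contra hcon
    push Not at hcon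
    exact hc (funext hcon)
  have hCsub : {c | IsC g c} ⊆
      ((N ×ˢ (univ : Finset (Fin (k + 1)))).image (fun x => x.1 + ee x.2) : Set _) := by
    intro c hc
    obtain ⟨i, hi⟩ := hsupp c (hCne c hc)
    rw [mem_coe, mem_image]
    exact ⟨(c - ee i, i), by rw [mem_product]; exact ⟨(hN _).2 (hc.2.2.2 i hi), mem_univ _⟩,
      sub_ee_add hi⟩
  have hCfin : {c | IsC g c}.Finite := (Finset.finite_toSet _).subset hCsub
  set C := hCfin.toFinset with hC
  have hCmem : ∀ a, a ∈ C ↔ IsC g a := by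
    intro a; simp [hC]
  refine ⟨C, hCmem, ?_⟩
  -- interior indices
  set J : Finset (Fin (k + 1)) := univ \ {0, Fin.last k} with hJ
  have hJmem : ∀ i, i ∈ J ↔ i ≠ 0 ∧ i ≠ Fin.last k := by
    intro i
    simp [hJ]
  have hne : (0 : Fin (k + 1)) ≠ Fin.last k := by
    intro h
    have := congrArg Fin.val h
    simp at this
    omega
  have hJcard : J.card + 2 = k + 1 := by
    have h1 : ({0, Fin.last k} : Finset (Fin (k + 1))).card = 2 := card_pair hne
    rw [hJ, ← h1, card_sdiff_add_card_eq_card (subset_univ _), card_univ, Fintype.card_fin]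
  have hNint : ∀ b, IsN g b → b 0 = 0 ∧ b (Fin.last k) = 0 := fun b hb =>
    ⟨IsB.zero_eq g hb.1, IsB.last_eq g hb.1⟩
  have hintJ : ∀ (c : Fin (k + 1) → ℕ) i, c 0 = 0 → c (Fin.last k) = 0 → c i ≠ 0 → i ∈ J := by
    intro c i h0 hl hi
    rw [hJmem]
    constructor
    · rintro rfl; exact hi h0
    · rintro rfl; exact hi hl
  -- pairs
  set X := N ×ˢ J with hX
  have hXcard : X.card = N.card * J.card := card_product _ _
  set ψ : (Fin (k + 1) → ℕ) × Fin (k + 1) → (Fin (k + 1) → ℕ) := fun x => x.1 + ee x.2 with hψ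
  set T := C ∪ N.erase 0 with hT
  have hdisj : Disjoint C (N.erase 0) := by
    rw [disjoint_left]
    intro c hc hc'
    exact ((hCmem c).1 hc).2.2.1 ((hN c).1 (mem_of_mem_erase hc'))
  have hfib : ∀ c ∈ T, (univ.filter (fun i => c i ≠ 0)).card ≤ (X.filter (fun x => ψ x = c)).card := by
    intro c hc
    apply card_le_card_of_injOn (fun i => (c - ee i, i))
    · intro i hi
      have hi' : c i ≠ 0 := by simpa using hi
      rw [mem_coe, mem_filter, hX, mem_product]
      refine ⟨⟨?_, ?_⟩, sub_ee_add hi'⟩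
      · rw [hN]
        rw [hT, mem_union] at hc
        rcases hc with hc | hc
        · exact ((hCmem c).1 hc).2.2.2 i hi'
        · have hcN := (hN c).1 (mem_of_mem_erase hc)
          exact hcN.of_le g (fun j => Nat.sub_le _ _)
      · rw [hT, mem_union] at hc
        rcases hc with hc | hc
        · exact hintJ c i ((hCmem c).1 hc).1 ((hCmem c).1 hc).2.1 hi'
        · have hcN := hNint c ((hN c).1 (mem_of_mem_erase hc))
          exact hintJ c i hcN.1 hcN.2 hi'
    · intro i _ j _ hij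
      exact (Prod.mk.inj hij).2
  have hsum : ∑ c ∈ T, (univ.filter (fun i => c i ≠ 0)).card ≤ X.card := by
    calc ∑ c ∈ T, (univ.filter (fun i => c i ≠ 0)).card
        ≤ ∑ c ∈ T, (X.filter (fun x => ψ x = c)).card := sum_le_sum hfib
      _ = (X.filter (fun x => ψ x ∈ T)).card := sum_card_fiberwise_eq_card_filter _ _ _
      _ ≤ X.card := card_filter_le _ _
  rw [hT, sum_union hdisj] at hsum
  have hsumN : (N.erase 0).card ≤ ∑ c ∈ N.erase 0, (univ.filter (fun i => c i ≠ 0)).card := by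
    rw [card_eq_sum_ones]
    apply sum_le_sum
    intro c hc
    obtain ⟨i, hi⟩ := hsupp c (ne_of_mem_erase hc)
    rw [Nat.one_le_iff_ne_zero, ← Nat.pos_iff_ne_zero, card_pos]
    exact ⟨i, by simp [hi]⟩
  -- pure elements
  set P := C.filter (fun c => (univ.filter (fun i => c i ≠ 0)).card ≤ 1) with hP
  have hPcard : P.card ≤ J.card := by
    have hch : ∀ c : Fin (k + 1) → ℕ, ∃ i, c ∈ P → (c i ≠ 0 ∧ c = Pi.single i (c i)) := by
      intro c
      by_cases hc : c ∈ P
      · rw [hP, mem_filter] at hc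
        obtain ⟨i, hi⟩ := hsupp c (hCne c ((hCmem c).1 hc.1))
        refine ⟨i, fun _ => ⟨hi, ?_⟩⟩
        funext j
        by_cases hj : j = i
        · subst hj; simp
        · rw [Pi.single_eq_of_ne hj]
          by_contra hcj
          have h1 := card_le_one.1 hc.2 i (by simp [hi]) j (by simp [hcj])
          exact hj h1.symm
      · exact ⟨0, fun h => absurd h hc⟩
    choose ι hι using hch
    apply card_le_card_of_injOn ι
    · intro c hc
      have hcP : c ∈ P := hc
      have hcC := (hCmem c).1 (mem_filter.1 hcP).1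
      exact hintJ c _ hcC.1 hcC.2.1 (hι c hcP).1
    · have key : ∀ c c', c ∈ P → c' ∈ P → ι c = ι c' → ¬ c (ι c) < c' (ι c') := by
        intro c c' hc hc' hii hlt
        have h1 := hι c hc
        have h2 := hι c' hc'
        have hcC := (hCmem c).1 (mem_filter.1 hc).1
        have hcC' := (hCmem c').1 (mem_filter.1 hc').1
        apply hcC.2.2.1
        apply (hcC'.2.2.2 _ h2.1).of_le g
        rw [h1.2, hii]
        intro j
        by_cases hj : j = ι c'
        · subst hj
          simp only [Pi.single_eq_same, Pi.sub_apply]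
          rw [hii] at hlt
          omega
        · rw [Pi.single_eq_of_ne hj]
          exact Nat.zero_le _
      intro c hc c' hc' hii
      have h1 := key c c' hc hc' hii
      have h2 := key c' c hc' hc hii.symm
      have h3 : c (ι c) = c' (ι c') := by omega
      rw [(hι c hc).2, (hι c' hc').2, h3, hii]
  have hsumC : 2 * C.card ≤ ∑ c ∈ C, (univ.filter (fun i => c i ≠ 0)).card + P.card := by
    have h1 : P.card = ∑ c ∈ C, if (univ.filter (fun i => c i ≠ 0)).card ≤ 1 then 1 else 0 := by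
      rw [hP, card_filter]
    rw [h1, ← sum_add_distrib]
    have h2 : 2 * C.card = ∑ c ∈ C, 2 := by rw [sum_const, smul_eq_mul, mul_comm]
    rw [h2]
    apply sum_le_sum
    intro c hc
    obtain ⟨i, hi⟩ := hsupp c (hCne c ((hCmem c).1 hc))
    have h3 : 0 < (univ.filter (fun i => c i ≠ 0)).card := by
      rw [card_pos]
      exact ⟨i, by simp [hi]⟩
    split_ifs with h4
    · omega
    · omega
  rw [card_erase_of_mem hN0] at hsumN
  have hNpos : 0 < N.card := card_pos.2 ⟨0, hN0⟩
  rw [← hNcard]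
  rw [hXcard] at hsum
  obtain ⟨h, hh⟩ : ∃ h, k = h + 1 := ⟨k - 1, by omega⟩
  have hJh : J.card = h := by omega
  rw [hJh] at hsum hPcard
  have h5 : ∀ kk : ℕ, kk = h + 1 → kk * (N.card + 1) = N.card * h + N.card + h + 1 := by
    rintro kk rfl
    ring
  rw [h5 k hh]
  omega

end Pool.Agent.Lib.MPb3fe82
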