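import Mathlib

/-!
# Growth of sumsets in a finite abelian group (an Olson / Hamidoune type bound)

If `0 ∈ A`, `A` generates the finite abelian group `G`, `X` is nonempty and `X + A ≠ G`, then
`|X + A| ≥ |X| + |A| / 2`.
-/

set_option autoImplicit false

open Finset Pointwise

namespace Pool.Agent.Lib.MPb3fe82

variable {G : Type*} [AddCommGroup G] [Fintype G] [DecidableEq G]

omit [Fintype G] in
theorem mem_add_singleton (Y : Finset G) (c u : G) : u ∈ Y + {c} ↔ u - c ∈ Y := by
  rw [mem_add]
  constructor
  · rintro ⟨v, hv, a, ha, rfl⟩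
    rw [mem_singleton] at ha
    subst ha
    simpa using hv
  · intro h
    exact ⟨_, h, c, mem_singleton_self c, by abel⟩

omit [Fintype G] in
theorem card_add_single (Y : Finset G) (c : G) : (Y + {c}).card = Y.card := by
  simp

theorem growth (A : Finset G) (h0 : (0 : G) ∈ A)
    (hgen : ∀ H : AddSubgroup G, (∀ a ∈ A, a ∈ H) → H = ⊤)
    (X : Finset G) (hX : X.Nonempty) (hXA : X + A ≠ univ) :
    2 * X.card + A.card ≤ 2 * (X + A).card := by
  classical
  set F : Finset (Finset G) := univ.filter (fun Y : Finset G => Y.Nonempty ∧ Y + A ≠ univ) with hF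
  have memF : ∀ Y : Finset G, Y ∈ F ↔ Y.Nonempty ∧ Y + A ≠ univ := by
    intro Y; simp [hF]
  have hsub : ∀ Y : Finset G, Y ⊆ Y + A := by
    intro Y y hy
    have := add_mem_add hy h0
    simpa using this
  have hle : ∀ Y : Finset G, Y.card ≤ (Y + A).card := fun Y => card_le_card (hsub Y)
  have hXF : X ∈ F := (memF X).2 ⟨hX, hXA⟩
  obtain ⟨Y0, hY0F, hY0⟩ := exists_min_image F (fun Y => (Y + A).card - Y.card) ⟨X, hXF⟩
  set κ := (Y0 + A).card - Y0.card with hκ
  set F' := F.filter (fun Y => (Y + A).card - Y.card = κ) with hF'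
  have hY0F' : Y0 ∈ F' := by simp [hF', hY0F, hκ]
  obtain ⟨Y1, hY1F', hY1min⟩ := exists_min_image F' (fun Y => Y.card) ⟨Y0, hY0F'⟩
  have hY1F : Y1 ∈ F := (mem_filter.1 hY1F').1
  have hY1κ : (Y1 + A).card - Y1.card = κ := (mem_filter.1 hY1F').2
  have hY1ne : Y1.Nonempty := ((memF Y1).1 hY1F).1
  have hY1A : Y1 + A ≠ univ := ((memF Y1).1 hY1F).2
  -- facts
  have fact1 : ∀ Z : Finset G, Z.Nonempty → Z + A ≠ univ → Z.card + κ ≤ (Z + A).card := by
    intro Z hZ hZA
    have h1 := hY0 Z ((memF Z).2 ⟨hZ, hZA⟩)
    have h2 := hle Z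
    omega
  have fact2 : ∀ Z : Finset G, Z.Nonempty → Z + A ≠ univ → (Z + A).card ≤ Z.card + κ →
      Y1.card ≤ Z.card := by
    intro Z hZ hZA hZκ
    apply hY1min Z
    rw [hF', mem_filter]
    refine ⟨(memF Z).2 ⟨hZ, hZA⟩, ?_⟩
    have := fact1 Z hZ hZA
    omega
  have hY1card : (Y1 + A).card = Y1.card + κ := by
    have := hle Y1
    omega
  -- size of the group
  have hbig : 2 * Y1.card + κ ≤ Fintype.card G := by
    set Xs : Finset G := -(univ \ (Y1 + A)) with hXs
    have hcard : Xs.card = Fintype.card G - (Y1 + A).card := by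
      rw [hXs, card_neg, card_sdiff_of_subset (subset_univ _), card_univ]
    have hlt : (Y1 + A).card < Fintype.card G := by
      rw [← card_univ]
      apply card_lt_card
      rw [Finset.ssubset_iff_subset_ne]
      exact ⟨subset_univ _, hY1A⟩
    have hne : Xs.Nonempty := by
      rw [← card_pos, hcard]; omega
    have hsub2 : Xs + A ⊆ -(univ \ Y1) := by
      intro z hz
      rw [mem_add] at hz
      obtain ⟨x, hx, a, ha, rfl⟩ := hz
      rw [hXs, mem_neg] at hx
      obtain ⟨t, ht, rfl⟩ := hx
      rw [mem_neg]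
      refine ⟨t - a, ?_, by abel⟩
      rw [mem_sdiff] at ht ⊢
      refine ⟨mem_univ _, fun hta => ht.2 ?_⟩
      have := add_mem_add hta ha
      simpa using this
    have hc2 : (Xs + A).card ≤ Fintype.card G - Y1.card := by
      refine (card_le_card hsub2).trans ?_
      rw [card_neg, card_sdiff_of_subset (subset_univ _), card_univ]
    have hY1pos : 0 < Y1.card := card_pos.2 hY1ne
    have hne2 : Xs + A ≠ univ := by
      intro h
      rw [h, card_univ] at hc2
      omega
    have h3 := fact2 Xs hne hne2 (by rw [hcard]; omega)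
    rw [hcard] at h3
    omega
  -- translates
  have htrans : ∀ x ∈ Y1, ∀ y ∈ Y1, ∀ z ∈ Y1, (z - x + y) ∈ Y1 := by
    intro x hx y hy
    -- Y = Y1 + (y - x), contains y
    by_contra hcon
    push Not at hcon
    obtain ⟨z, hz, hzn⟩ := hcon
    set Y : Finset G := Y1 + {y - x} with hY
    have hYmem : ∀ u, u ∈ Y ↔ u - (y - x) ∈ Y1 := by
      intro u
      rw [hY, mem_add_singleton]
    have hYcard : Y.card = Y1.card := by
      rw [hY]; simp
    have hYAcard : (Y + A).card = (Y1 + A).card := by
      have : Y + A = (Y1 + A) + {y - x} := by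
        rw [hY]; abel
      rw [this]; simp
    have hyY : y ∈ Y := by rw [hYmem]; simpa using hx
    set Z := Y1 ∩ Y with hZ
    have hZne : Z.Nonempty := ⟨y, by rw [hZ, mem_inter]; exact ⟨hy, hyY⟩⟩
    have hZlt : Z.card < Y1.card := by
      -- z - x + y ∈ Y, not in Y1
      have h1 : z - x + y ∈ Y := by
        rw [hYmem]
        have : z - x + y - (y - x) = z := by abel
        rw [this]; exact hz
      have h2 : Z ⊂ Y := by
        rw [Finset.ssubset_iff_subset_ne]
        refine ⟨inter_subset_right, fun h => hzn ?_⟩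
        rw [← h] at h1
        exact (mem_inter.1 h1).1
      have := card_lt_card h2
      omega
    have hZA1 : Z + A ⊆ (Y1 + A) ∩ (Y + A) := by
      apply subset_inter
      · exact add_subset_add_right inter_subset_left
      · exact add_subset_add_right inter_subset_right
    have hZAne : Z + A ≠ univ := by
      intro h
      apply hY1A
      rw [eq_univ_iff_forall]
      intro u
      have : u ∈ Z + A := by rw [h]; exact mem_univ _
      exact (mem_inter.1 (hZA1 this)).1
    have hZ1 : Z.card + κ + 1 ≤ (Z + A).card := by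
      by_contra hcc
      have := fact2 Z hZne hZAne (by omega)
      omega
    have hU : (Y1 ∪ Y) + A = (Y1 + A) ∪ (Y + A) := union_add
    have e1 := card_union_add_card_inter (Y1 + A) (Y + A)
    have e2 := card_union_add_card_inter Y1 Y
    have e3 := card_le_card hZA1
    rw [← hU] at e1
    rw [← hZ] at e2
    by_cases hUA : (Y1 ∪ Y) + A = univ
    · rw [hUA, card_univ] at e1
      omega
    · have hUne : (Y1 ∪ Y).Nonempty := hY1ne.mono subset_union_left
      have := fact1 _ hUne hUA
      omega
  -- a subgroup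
  obtain ⟨x0, hx0⟩ := hY1ne
  set H0 : Finset G := Y1 + {-x0} with hH0
  have hH0mem : ∀ u, u ∈ H0 ↔ u + x0 ∈ Y1 := by
    intro u
    rw [hH0, mem_add_singleton, sub_neg_eq_add]
  let H : AddSubgroup G :=
    { carrier := {u | u ∈ H0}
      zero_mem' := by
        simp only [Set.mem_ofPred_eq, hH0mem]
        simpa using hx0
      add_mem' := by
        intro a b ha hb
        simp only [Set.mem_ofPred_eq, hH0mem] at ha hb ⊢
        have := htrans x0 hx0 (b + x0) hb (a + x0) ha
        have h2 : a + x0 - x0 + (b + x0) = a + b + x0 := by abel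
        rwa [h2] at this
      neg_mem' := by
        intro a ha
        simp only [Set.mem_ofPred_eq, hH0mem] at ha ⊢
        have := htrans (a + x0) ha x0 hx0 x0 hx0
        have h2 : x0 - (a + x0) + x0 = -a + x0 := by abel
        rwa [h2] at this }
  have hHmem : ∀ u, u ∈ H ↔ u ∈ H0 := fun u => Iff.rfl
  have hH0card : H0.card = Y1.card := by rw [hH0]; simp
  have hH0A : (H0 + A).card = (Y1 + A).card := by
    have : H0 + A = (Y1 + A) + {-x0} := by
      rw [hH0]; abel
    rw [this]; simp
  have hH0ne : H0 + A ≠ univ := by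
    intro h
    have h1 : (Y1 + A).card = Fintype.card G := by rw [← hH0A, h, card_univ]
    apply hY1A
    exact (card_eq_iff_eq_univ _).1 h1
  -- A not contained in H
  have hAH : ∃ a ∈ A, a ∉ H0 := by
    by_contra hcon
    push Not at hcon
    have hH : H = ⊤ := hgen H (fun a ha => (hHmem a).2 (hcon a ha))
    apply hH0ne
    rw [eq_univ_iff_forall]
    intro u
    have hu : u ∈ H0 := by
      rw [← hHmem, hH]; trivial
    exact hsub H0 hu
  obtain ⟨a, haA, haH⟩ := hAH
  have hdisj : Disjoint H0 (H0 + {a}) := by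
    rw [disjoint_left]
    intro u hu hu2
    rw [mem_add_singleton] at hu2
    apply haH
    have h1 : u ∈ H := hu
    have h2 : u - a ∈ H := hu2
    have h3 := H.sub_mem h1 h2
    have h4 : u - (u - a) = a := by abel
    rw [h4] at h3
    exact h3
  have h2H : 2 * H0.card ≤ (H0 + A).card := by
    have h1 : H0 ∪ (H0 + {a}) ⊆ H0 + A := by
      apply union_subset (hsub H0)
      exact add_subset_add_left (singleton_subset_iff.2 haA)
    have h2 := card_le_card h1
    have h3 := card_add_single H0 a
    rw [card_union_of_disjoint hdisj] at h2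
    omega
  have hA2 : A.card ≤ (H0 + A).card := by
    apply card_le_card
    intro u hu
    have h1 : (0 : G) ∈ H0 := H.zero_mem
    have := add_mem_add h1 hu
    simpa using this
  have hfin := fact1 X hX hXA
  omega

end Pool.Agent.Lib.MPb3fe82
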