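import Mathlib
import Pool.Agent.Lib.MP_b3fe82_al.Growth

/-!
# Counting the new elements of the iterated sumsets of a set `D ⊆ [0, w]`
-/

set_option autoImplicit false

open Finset Pointwise

namespace Pool.Agent.Lib.MPb3fe82

/-- The `n`-fold sumset of the set of values of `d`. -/
def S {k : ℕ} (d : Fin (k + 1) → ℕ) : ℕ → Finset ℕ
  | 0 => {0}
  | n + 1 => S d n + univ.image d

/-- Elements of the `n`-fold sumset that come from the `(n-1)`-fold sumset neither by adding
`0` nor by adding the largest element. -/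
def New {k : ℕ} (d : Fin (k + 1) → ℕ) : ℕ → Finset ℕ
  | 0 => {0}
  | n + 1 => S d (n + 1) \ (S d n ∪ (S d n + {d (Fin.last k)}))

/-- Image of the `n`-fold sumset modulo the largest element. -/
def C {k : ℕ} (d : Fin (k + 1) → ℕ) (n : ℕ) : Finset (ZMod (d (Fin.last k))) :=
  (S d n).image (fun x : ℕ => (x : ZMod (d (Fin.last k))))

section

variable {k : ℕ} (d : Fin (k + 1) → ℕ)

theorem S_nonempty (n : ℕ) : (S d n).Nonempty := by
  induction n with
  | zero => simp [S]
  | succ n ih =>
    rw [S]
    exact ih.add (by simp)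

theorem S_sub (hd : StrictMono d) (n : ℕ) : S d n ⊆ range (n * d (Fin.last k) + 1) := by
  induction n with
  | zero => simp [S]
  | succ n ih =>
    intro x hx
    rw [S, mem_add] at hx
    obtain ⟨y, hy, z, hz, rfl⟩ := hx
    have h1 := mem_range.1 (ih hy)
    rw [mem_image] at hz
    obtain ⟨i, -, rfl⟩ := hz
    have h2 : d i ≤ d (Fin.last k) := hd.monotone (Fin.le_last i)
    rw [mem_range, add_mul]
    omega

theorem card_S_le (hd : StrictMono d) (n : ℕ) : (S d n).card ≤ n * d (Fin.last k) + 1 := by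
  have := card_le_card (S_sub d hd n)
  rwa [card_range] at this

theorem card_union (hw : 0 < d (Fin.last k)) (n : ℕ) :
    (S d n).card + (C d n).card ≤ (S d n ∪ (S d n + {d (Fin.last k)})).card := by
  classical
  set w := d (Fin.last k) with hwdef
  set T := (S d n + {w}) \ S d n with hT
  have h1 : C d n ⊆ T.image (fun x : ℕ => (x : ZMod w)) := by
    intro r hr
    rw [C, mem_image] at hr
    obtain ⟨x, hx, rfl⟩ := hr
    set X := (S d n).filter (fun y : ℕ => (y : ZMod w) = (x : ZMod w)) with hX
    have hXne : X.Nonempty := ⟨x, by simp [hX, hx]⟩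
    obtain ⟨y, hyX, hy⟩ := exists_max_image X id hXne
    rw [hX, mem_filter] at hyX
    rw [mem_image]
    refine ⟨y + w, ?_, ?_⟩
    · rw [hT, mem_sdiff]
      refine ⟨add_mem_add hyX.1 (mem_singleton_self _), fun h => ?_⟩
      have h2 : y + w ∈ X := by
        rw [hX, mem_filter]
        refine ⟨h, ?_⟩
        push_cast
        simp [hyX.2]
      have := hy _ h2
      simp only [id] at this
      omega
    · push_cast
      simp [hyX.2]
  have h2 : (C d n).card ≤ T.card := (card_le_card h1).trans card_image_le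
  have h3 : (S d n ∪ (S d n + {w})).card = (S d n).card + T.card := by
    rw [hT, union_comm, ← card_sdiff_add_card]
    ring
  have h4 : (S d n ∪ (S d n + {d (Fin.last k)})).card = (S d n).card + T.card := h3
  omega

theorem count (hw : 0 < d (Fin.last k)) (h0 : d 0 = 0) (N : ℕ) :
    ∑ n ∈ range (N + 1), (New d n).card + ∑ n ∈ range N, (C d n).card ≤ (S d N).card := by
  induction N with
  | zero => simp [New, S]
  | succ N ih =>
    rw [sum_range_succ, sum_range_succ (fun n => (C d n).card)]
    have h1 : S d N ∪ (S d N + {d (Fin.last k)}) ⊆ S d (N + 1) := by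
      rw [S]
      apply union_subset
      · intro x hx
        have : (0 : ℕ) ∈ univ.image d := by
          rw [mem_image]; exact ⟨0, mem_univ _, h0⟩
        have := add_mem_add hx this
        simpa using this
      · apply add_subset_add_left
        rw [singleton_subset_iff, mem_image]
        exact ⟨_, mem_univ _, rfl⟩
    have h2 := card_union d hw N
    have h3 : (New d (N + 1)).card + (S d N ∪ (S d N + {d (Fin.last k)})).card
        = (S d (N + 1)).card := by
      rw [New, card_sdiff_add_card_eq_card h1]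
    omega

theorem C_succ (n : ℕ) :
    C d (n + 1) = C d n + univ.image (fun i => (d i : ZMod (d (Fin.last k)))) := by
  ext r
  simp only [C, S, mem_image, mem_add]
  constructor
  · rintro ⟨x, ⟨y, hy, z, ⟨i, hi, rfl⟩, rfl⟩, rfl⟩
    exact ⟨_, ⟨y, hy, rfl⟩, _, ⟨i, hi, rfl⟩, by push_cast; rfl⟩
  · rintro ⟨_, ⟨y, hy, rfl⟩, _, ⟨i, hi, rfl⟩, rfl⟩
    exact ⟨_, ⟨y, hy, _, ⟨i, hi, rfl⟩, rfl⟩, by push_cast; rfl⟩

theorem C_zero : C d 0 = {0} := by
  simp [C, S]

theorem C_one_card (hk : 0 < k) (hd : StrictMono d) (h0 : d 0 = 0) : (C d 1).card = k := by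
  classical
  have hw : 0 < d (Fin.last k) := by
    rw [← h0]; apply hd
    rw [Fin.lt_def]; simpa using hk
  rw [C_succ, C_zero, singleton_zero, zero_add]
  have h1 : univ.image (fun i => (d i : ZMod (d (Fin.last k))))
      = (univ : Finset (Fin k)).image (fun i => (d i.castSucc : ZMod (d (Fin.last k)))) := by
    ext r
    simp only [mem_image, mem_univ, true_and]
    constructor
    · rintro ⟨i, rfl⟩
      by_cases hi : i = Fin.last k
      · refine ⟨⟨0, hk⟩, ?_⟩
        have : (Fin.castSucc (⟨0, hk⟩ : Fin k)) = (0 : Fin (k + 1)) := by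
          ext; simp
        rw [this, h0, hi]
        simp
      · obtain ⟨j, rfl⟩ := Fin.exists_castSucc_eq.2 hi
        exact ⟨j, rfl⟩
    · rintro ⟨i, rfl⟩
      exact ⟨_, rfl⟩
  rw [h1, card_image_of_injective]
  · simp
  · intro i j hij
    simp only at hij
    have hi : d i.castSucc < d (Fin.last k) := hd (Fin.castSucc_lt_last i)
    have hj : d j.castSucc < d (Fin.last k) := hd (Fin.castSucc_lt_last j)
    rw [ZMod.natCast_eq_natCast_iff'] at hij
    rw [Nat.mod_eq_of_lt hi, Nat.mod_eq_of_lt hj] at hij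
    have := hd.injective hij
    exact Fin.castSucc_injective _ this

theorem gen (hgcd : univ.gcd d = 1) (H : AddSubgroup (ZMod (d (Fin.last k))))
    (hH : ∀ a ∈ univ.image (fun i => (d i : ZMod (d (Fin.last k)))), a ∈ H) : H = ⊤ := by
  classical
  let K : AddSubgroup ℤ := H.comap (Int.castAddHom _)
  have hK : ∀ i, (d i : ℤ) ∈ K := by
    intro i
    rw [AddSubgroup.mem_comap]
    have := hH (d i) (mem_image.2 ⟨i, mem_univ _, rfl⟩)
    simpa using this
  obtain ⟨a, ha⟩ := Int.subgroup_cyclic K
  have hdiv : ∀ i, a.natAbs ∣ d i := by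
    intro i
    have h1 := hK i
    rw [ha, AddSubgroup.mem_closure_singleton] at h1
    obtain ⟨c, hc⟩ := h1
    rw [← Int.natCast_dvd_natCast, Int.natAbs_dvd]
    exact ⟨c, by rw [← hc, smul_eq_mul, mul_comm]⟩
  have h1 : a.natAbs ∣ 1 := by
    rw [← hgcd]
    exact Finset.dvd_gcd (fun i _ => hdiv i)
  have h2 : a.natAbs = 1 := Nat.dvd_one.1 h1
  have h3 : (1 : ℤ) ∈ K := by
    rw [ha, AddSubgroup.mem_closure_singleton]
    rcases Int.natAbs_eq a with h | h
    · rw [h2] at h; exact ⟨1, by rw [h]; simp⟩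
    · rw [h2] at h; exact ⟨-1, by rw [h]; simp⟩
  rw [AddSubgroup.mem_comap] at h3
  rw [eq_top_iff]
  intro z _
  obtain ⟨c, rfl⟩ := ZMod.intCast_surjective z
  have h4 := H.zsmul_mem h3 c
  simpa using h4

theorem potential (hk : 0 < k) (hd : StrictMono d) (h0 : d 0 = 0) (hgcd : univ.gcd d = 1)
    (n : ℕ) (t t' : ℕ) (ht : (C d n).card + t = d (Fin.last k))
    (ht' : (C d (n + 1)).card + t' = d (Fin.last k)) :
    k * t + t' * (t' + k) ≤ t * (t + k) := by
  classical
  have hw : 0 < d (Fin.last k) := by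
    rw [← h0]; apply hd
    rw [Fin.lt_def]; simpa using hk
  have : NeZero (d (Fin.last k)) := ⟨hw.ne'⟩
  set A := univ.image (fun i => (d i : ZMod (d (Fin.last k)))) with hA
  have hAcard : A.card = k := by
    have := C_one_card d hk hd h0
    rwa [C_succ, C_zero, singleton_zero, zero_add] at this
  by_cases ht0 : t' = 0
  · subst ht0
    nlinarith
  · have hne : C d n + A ≠ univ := by
      intro h
      rw [← C_succ] at h
      rw [h, card_univ, ZMod.card] at ht'
      omega
    have hCn : (C d n).Nonempty := by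
      rw [C]; exact (S_nonempty d n).image _
    have h0A : (0 : ZMod (d (Fin.last k))) ∈ A := by
      rw [hA, mem_image]; exact ⟨0, mem_univ _, by simp [h0]⟩
    have hg := growth A h0A (gen d hgcd) (C d n) hCn hne
    rw [← C_succ, hAcard] at hg
    have h1 : 2 * t' + k ≤ 2 * t := by omega
    nlinarith [Nat.mul_le_mul h1 h1]

theorem sum_bound (hk : 0 < k) (hd : StrictMono d) (h0 : d 0 = 0) (hgcd : univ.gcd d = 1)
    (N : ℕ) :
    k * ∑ n ∈ range (N + 1), (New d n).card ≤ d (Fin.last k) ^ 2 := by
  classical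
  have hw : 0 < d (Fin.last k) := by
    rw [← h0]; apply hd
    rw [Fin.lt_def]; simpa using hk
  have : NeZero (d (Fin.last k)) := ⟨hw.ne'⟩
  set w := d (Fin.last k) with hwdef
  have hCle : ∀ n, (C d n).card ≤ w := by
    intro n
    have := card_le_univ (C d n)
    rwa [ZMod.card] at this
  have hkw : k ≤ w := by
    have := hCle 1
    rwa [C_one_card d hk hd h0] at this
  set t : ℕ → ℕ := fun n => w - (C d n).card with ht
  have htn : ∀ n, (C d n).card + t n = w := by
    intro n
    have := hCle n
    simp only [ht]; omega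
  -- telescoping
  have tel : ∀ M, k * ∑ n ∈ range M, t (n + 1) + t (M + 1) * (t (M + 1) + k)
      ≤ t 1 * (t 1 + k) := by
    intro M
    induction M with
    | zero => simp
    | succ M ih =>
      rw [sum_range_succ, mul_add]
      have := potential d hk hd h0 hgcd (M + 1) (t (M + 1)) (t (M + 1 + 1)) (htn _) (htn _)
      omega
  have ht1 : t 1 + k = w := by
    have := htn 1
    rw [C_one_card d hk hd h0] at this
    omega
  have ht0 : t 0 + 1 = w := by
    have := htn 0
    rw [C_zero, card_singleton] at this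
    omega
  -- counting
  have hc := count d hw h0 (N + 1)
  have hS := card_S_le d hd (N + 1)
  have hsum : ∑ n ∈ range (N + 1), (C d n).card + ∑ n ∈ range (N + 1), t n = (N + 1) * w := by
    rw [← sum_add_distrib, sum_congr rfl (fun n _ => htn n)]
    simp
  have hmono : ∑ n ∈ range (N + 1), (New d n).card ≤ ∑ n ∈ range (N + 1 + 1), (New d n).card := by
    rw [sum_range_succ _ (N + 1)]
    omega
  have h1 : ∑ n ∈ range (N + 1), (New d n).card ≤ 1 + ∑ n ∈ range (N + 1), t n := by
    rw [← hwdef] at hS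
    omega
  rw [sum_range_succ' t] at h1
  have h2 := tel N
  rw [ht1] at h2
  have h3 : k * ∑ n ∈ range N, t (n + 1) ≤ t 1 * w := by
    exact (Nat.le_add_right _ _).trans h2
  calc k * ∑ n ∈ range (N + 1), (New d n).card
      ≤ k * (1 + (∑ n ∈ range N, t (n + 1) + t 0)) := Nat.mul_le_mul_left _ h1
    _ = k * ∑ n ∈ range N, t (n + 1) + k * (t 0 + 1) := by ring
    _ ≤ t 1 * w + k * w := by rw [ht0]; omega
    _ = (t 1 + k) * w := by ring
    _ = w ^ 2 := by rw [ht1]; ring

theorem card_bound (hk : 0 < k) (hd : StrictMono d) (h0 : d 0 = 0) (hgcd : univ.gcd d = 1)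
    (F : Finset (ℕ × ℕ)) (hF : ∀ p ∈ F, p.2 ∈ New d p.1) :
    k * F.card ≤ d (Fin.last k) ^ 2 := by
  classical
  set N := F.sup Prod.fst with hN
  have h1 : F ⊆ (range (N + 1)).biUnion (fun n => (New d n).image (fun x => (n, x))) := by
    intro p hp
    rw [mem_biUnion]
    refine ⟨p.1, ?_, ?_⟩
    · rw [mem_range]
      have : p.1 ≤ N := by rw [hN]; exact le_sup (f := Prod.fst) hp
      omega
    · rw [mem_image]
      exact ⟨p.2, hF p hp, rfl⟩
  have h2 : F.card ≤ ∑ n ∈ range (N + 1), (New d n).card := by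
    refine (card_le_card h1).trans (card_biUnion_le.trans ?_)
    exact sum_le_sum (fun n _ => card_image_le)
  exact (Nat.mul_le_mul_left _ h2).trans (sum_bound d hk hd h0 hgcd N)

end

end Pool.Agent.Lib.MPb3fe82
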