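import Mathlib
import Pool.Agent.Lib.MP_b3fe82_al.Sumset
import Pool.Agent.Lib.MP_b3fe82_al.Count

/-!
# The bound `ρ(Γ) ≤ C(width + 1, 2)`
-/

set_option autoImplicit false

open Finset

namespace Pool.Agent.Lib.MPb3fe82

variable {k : ℕ}

/-- Elements of the `n`-fold sumset are the sums of `n` terms. -/
theorem mem_S (d : Fin (k + 1) → ℕ) (n x : ℕ) :
    x ∈ S d n ↔ ∃ a : Fin (k + 1) → ℕ, ∑ i, a i = n ∧ phi d a = x := by
  induction n generalizing x with
  | zero =>
    rw [S, mem_singleton]
    constructor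
    · rintro rfl
      exact ⟨0, by simp, map_zero _⟩
    · rintro ⟨a, ha, rfl⟩
      rw [Finset.sum_eq_zero_iff] at ha
      rw [phi_apply]
      apply Finset.sum_eq_zero
      intro i hi
      rw [ha i hi, zero_mul]
  | succ n ih =>
    rw [S, mem_add]
    constructor
    · rintro ⟨y, hy, z, hz, rfl⟩
      rw [ih] at hy
      obtain ⟨a, ha, rfl⟩ := hy
      rw [mem_image] at hz
      obtain ⟨i, -, rfl⟩ := hz
      refine ⟨a + ee i, ?_, ?_⟩
      · simp only [Pi.add_apply, sum_add_distrib, ha]
        congr 1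
        rw [Finset.sum_eq_single i]
        · simp
        · intro j _ hj
          simp [Pi.single_eq_of_ne hj]
        · simp
      · rw [map_add, phi_ee]
    · rintro ⟨a, ha, rfl⟩
      have : ∃ i, a i ≠ 0 := by
        by_contra hcon
        push Not at hcon
        simp [hcon] at ha
      obtain ⟨i, hi⟩ := this
      refine ⟨phi d (a - ee i), ?_, d i, ?_, phi_sub d hi⟩
      · rw [ih]
        refine ⟨a - ee i, ?_, rfl⟩
        have h1 : ∑ j, (a - ee i) j + 1 = ∑ j, a j := by
          conv_rhs => rw [← sub_ee_add hi]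
          simp only [Pi.add_apply, sum_add_distrib]
          congr 1
          rw [Finset.sum_eq_single i]
          · simp
          · intro j _ hj
            simp [Pi.single_eq_of_ne hj]
          · simp
        omega
      · rw [mem_image]; exact ⟨i, mem_univ _, rfl⟩

theorem phi_affine (g d : Fin (k + 1) → ℕ) (δ : ℕ) (hgd : ∀ i, g i = g 0 + δ * d i)
    (a : Fin (k + 1) → ℕ) : phi g a = (∑ i, a i) * g 0 + δ * phi d a := by
  rw [phi_apply, phi_apply, sum_mul, mul_sum, ← sum_add_distrib]
  apply sum_congr rfl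
  intro i _
  rw [hgd i]
  ring

theorem B_bound (g d : Fin (k + 1) → ℕ) (δ : ℕ) (hk : 0 < k) (hg0 : 0 < g 0)
    (hgd : ∀ i, g i = g 0 + δ * d i) (hd : StrictMono d) (h0 : d 0 = 0)
    (hgcd : univ.gcd d = 1) :
    k * (Bset g hg0).card ≤ d (Fin.last k) ^ 2 := by
  classical
  have hex : ∀ b, ∃ a : Fin (k + 1) → ℕ, IsB g b → phi g a = b := by
    intro b
    by_cases h : IsB g b
    · obtain ⟨a, ha⟩ := h.1
      exact ⟨a, fun _ => ha⟩
    · exact ⟨0, fun h' => absurd h' h⟩
  choose α hα using hex
  set f : ℕ → ℕ × ℕ := fun b => (∑ i, α b i, phi d (α b)) with hf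
  have hval : ∀ b, IsB g b → (f b).1 * g 0 + δ * (f b).2 = b := by
    intro b hb
    rw [hf]
    simp only
    rw [← phi_affine g d δ hgd, hα b hb]
  have hcard : ((Bset g hg0).image f).card = (Bset g hg0).card := by
    apply card_image_of_injOn
    intro b hb b' hb' h
    have h1 := hval b ((mem_Bset g hg0 b).1 hb)
    have h2 := hval b' ((mem_Bset g hg0 b').1 hb')
    rw [← h1, ← h2, h]
  rw [← hcard]
  apply card_bound d hk hd h0 hgcd
  intro p hp
  rw [mem_image] at hp
  obtain ⟨b, hb, rfl⟩ := hp
  have hB := (mem_Bset g hg0 b).1 hb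
  have hv := hval b hB
  have hS : (f b).2 ∈ S d (f b).1 := by
    rw [mem_S]; exact ⟨α b, rfl, rfl⟩
  rcases hn : (f b).1 with _ | n
  · rw [hn] at hS
    rw [New]
    exact hS
  · rw [hn] at hS hv
    rw [New, mem_sdiff]
    refine ⟨hS, fun hmem => ?_⟩
    rw [mem_union] at hmem
    rcases hmem with h1 | h1
    · rw [mem_S] at h1
      obtain ⟨a, ha1, ha2⟩ := h1
      apply hB.2.1 _ ⟨a, rfl⟩
      rw [phi_affine g d δ hgd, ha1, ha2]
      refine Eq.trans ?_ hv
      ring
    · rw [mem_add] at h1
      obtain ⟨x, hx, y, hy, hxy⟩ := h1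
      rw [mem_singleton] at hy
      subst hy
      rw [mem_S] at hx
      obtain ⟨a, ha1, ha2⟩ := hx
      apply hB.2.2 _ ⟨a, rfl⟩
      rw [phi_affine g d δ hgd, ha1, ha2, hgd (Fin.last k)]
      refine Eq.trans ?_ hv
      rw [← hxy]
      ring

/-- The main bound, in the form `2 |R| ≤ k (|B| + 1)`. -/
theorem presentation (g : Fin (k + 1) → ℕ) (hk : 0 < k) (hpos : ∀ i, 0 < g i) :
    ∃ R : Finset ((Fin (k + 1) → ℕ) × (Fin (k + 1) → ℕ)),
      2 * R.card ≤ k * ((Bset g (hpos 0)).card + 1) ∧
      ∀ a b : Fin (k + 1) → ℕ,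
        (addConGen (fun x y => (x, y) ∈ R)) a b ↔ ∑ i, a i * g i = ∑ i, b i * g i := by
  classical
  obtain ⟨E, hE, hEcard⟩ := exists_Eset g (hpos 0)
  obtain ⟨C, hC, hCcard⟩ := exists_Cset g hk (hpos 0) (hpos _)
  choose r hr using exists_canon g
  have hex : ∀ n, ∃ z : (Fin (k + 1) → ℕ) × (Fin (k + 1) → ℕ), IsE g n →
      phi g z.1 = n ∧ phi g z.2 = n ∧ z.1 0 ≠ 0 ∧ z.2 (Fin.last k) ≠ 0 := by
    intro n
    by_cases h : IsE g n
    · obtain ⟨⟨m, ⟨a, ha⟩, hm⟩, ⟨m', ⟨a', ha'⟩, hm'⟩, -⟩ := h
      refine ⟨(a + ee 0, a' + ee (Fin.last k)), fun _ => ⟨?_, ?_, ?_, ?_⟩⟩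
      · rw [map_add, phi_ee, ha, hm]
      · rw [map_add, phi_ee, ha', hm']
      · simp
      · simp
    · exact ⟨0, fun h' => absurd h' h⟩
  choose z hz using hex
  set R : Finset ((Fin (k + 1) → ℕ) × (Fin (k + 1) → ℕ)) :=
    C.image (fun c => (c, r c)) ∪ E.image z with hR
  refine ⟨R, ?_, ?_⟩
  · have h1 : R.card ≤ C.card + E.card := by
      rw [hR]
      exact (card_union_le _ _).trans (Nat.add_le_add card_image_le card_image_le)
    omega
  · intro a b
    have hle : addConGen (fun x y => (x, y) ∈ R) ≤ AddCon.ker (phi g) := by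
      rw [AddCon.addConGen_le]
      intro x y hxy
      rw [AddCon.ker_rel]
      rw [hR, mem_union, mem_image, mem_image] at hxy
      rcases hxy with ⟨c, hc, hc'⟩ | ⟨n, hn, hn'⟩
      · obtain ⟨rfl, rfl⟩ := Prod.mk.inj hc'
        exact (hr c).1.symm
      · have h1 := hz n ((hE n).1 hn)
        rw [hn'] at h1
        rw [h1.1, h1.2.1]
    constructor
    · intro h
      have := hle h
      rw [AddCon.ker_rel] at this
      exact this
    · intro h
      apply main_cong g hpos r hr _ _ _ a b h
      · intro c hc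
        apply AddConGen.Rel.of
        rw [hR, mem_union]
        left
        rw [mem_image]
        exact ⟨c, (hC c).2 hc, rfl⟩
      · intro n hn
        obtain ⟨h1, h2, h3, h4⟩ := hz n hn
        refine ⟨(z n).1, (z n).2, h1, h2, h3, h4, ?_⟩
        apply AddConGen.Rel.of
        rw [hR, mem_union]
        right
        rw [mem_image]
        exact ⟨n, (hE n).2 hn, rfl⟩

theorem le_of_strictMono (d : Fin (k + 1) → ℕ) (hd : StrictMono d) : k ≤ d (Fin.last k) := by
  have h : ∀ i : Fin (k + 1), (i : ℕ) ≤ d i := by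
    intro i
    induction i using Fin.induction with
    | zero => simp
    | succ i ih =>
      have := hd (Fin.castSucc_lt_succ (i := i))
      simp only [Fin.val_succ, Fin.val_castSucc] at *
      omega
  simpa using h (Fin.last k)

theorem main (e : ℕ) (g : Fin (e + 1) → ℕ) (hg : StrictMono g) (hg0 : 0 < g 0)
    (hgcd : Finset.univ.gcd g = 1) :
    ∃ R : Finset ((Fin (e + 1) → ℕ) × (Fin (e + 1) → ℕ)),
        R.card ≤ (g (Fin.last e) - g 0 + 1).choose 2 ∧
        ∀ a b : Fin (e + 1) → ℕ,
          (addConGen (fun x y => (x, y) ∈ R)) a b ↔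
            ∑ i, a i * g i = ∑ i, b i * g i := by
  classical
  have hpos : ∀ i, 0 < g i := fun i => lt_of_lt_of_le hg0 (hg.monotone (Fin.zero_le i))
  rcases Nat.eq_zero_or_pos e with rfl | he
  · refine ⟨∅, by simp, ?_⟩
    intro a b
    have h1 : g 0 ≠ 0 := hg0.ne'
    constructor
    · intro h
      have hle : addConGen (fun x y => (x, y) ∈ (∅ : Finset ((Fin (0 + 1) → ℕ) × (Fin (0 + 1) → ℕ))))
          ≤ AddCon.ker (phi g) := by
        rw [AddCon.addConGen_le]
        intro x y hxy
        simp at hxy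
      have := hle h
      rw [AddCon.ker_rel] at this
      exact this
    · intro h
      have hab : a = b := by
        funext i
        have hi : i = 0 := by
          ext
          have := i.isLt
          simp only [Fin.val_zero]
          omega
        subst hi
        rw [Fin.sum_univ_succ, Fin.sum_univ_succ] at h
        simp only [univ_eq_empty, sum_empty, add_zero] at h
        exact Nat.eq_of_mul_eq_mul_right hg0 h
      rw [hab]
      exact AddCon.refl _ _
  · -- differences
    set D : Fin (e + 1) → ℕ := fun i => g i - g 0 with hD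
    have hgle : ∀ i, g 0 ≤ g i := fun i => hg.monotone (Fin.zero_le i)
    set δ := univ.gcd D with hδ
    have hlast : 0 < D (Fin.last e) := by
      have : g 0 < g (Fin.last e) := by
        apply hg
        rw [Fin.lt_def]; simpa using he
      simp only [hD]; omega
    have hδpos : 0 < δ := by
      rcases Nat.eq_zero_or_pos δ with h | h
      · exfalso
        rw [hδ, Finset.gcd_eq_zero_iff] at h
        have := h (Fin.last e) (mem_univ _)
        omega
      · exact h
    obtain ⟨d, hd1, hd2⟩ := Finset.extract_gcd D (s := univ) ⟨0, mem_univ _⟩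
    have hDd : ∀ i, D i = δ * d i := fun i => hd1 i (mem_univ i)
    have hgd : ∀ i, g i = g 0 + δ * d i := by
      intro i
      rw [← hDd i]
      have := hgle i
      simp only [hD]; omega
    have hd0 : d 0 = 0 := by
      have h1 := hDd 0
      simp only [hD, Nat.sub_self] at h1
      rcases Nat.mul_eq_zero.1 h1.symm with h | h
      · omega
      · exact h
    have hdmono : StrictMono d := by
      intro i j hij
      have h1 := hg hij
      rw [hgd i, hgd j] at h1
      have h2 : δ * d i < δ * d j := by omega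
      exact Nat.lt_of_mul_lt_mul_left h2
    obtain ⟨R, hR1, hR2⟩ := presentation g he hpos
    refine ⟨R, ?_, hR2⟩
    have hB := B_bound g d δ he hg0 hgd hdmono hd0 hd2
    have hed := le_of_strictMono d hdmono
    have hw : g (Fin.last e) - g 0 = δ * d (Fin.last e) := by
      rw [hgd (Fin.last e)]; omega
    set w := g (Fin.last e) - g 0 with hwdef
    have hdw : d (Fin.last e) ≤ w := by
      rw [hw]; exact Nat.le_mul_of_pos_left _ hδpos
    have h1 : 2 * R.card ≤ (w + 1) * w := by
      calc 2 * R.card ≤ e * ((Bset g (hpos 0)).card + 1) := hR1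
        _ = e * (Bset g (hpos 0)).card + e := by ring
        _ ≤ d (Fin.last e) ^ 2 + d (Fin.last e) := Nat.add_le_add hB hed
        _ ≤ (w + 1) * w := by nlinarith
    rw [Nat.choose_two_right]
    simp only [Nat.add_sub_cancel]
    omega

end Pool.Agent.Lib.MPb3fe82
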