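import Pool.Agent.Lib.MP_b3fe82_al.Main

/-!
# The bound `ρ(Γ) ≤ C(width / δ + 1, 2)`, `δ` the gcd of the differences of the generators
-/

set_option autoImplicit false

open Finset

namespace Pool.Agent.Lib.MPb3fe82

theorem main_strong (e : ℕ) (g : Fin (e + 1) → ℕ) (hg : StrictMono g) (hg0 : 0 < g 0) :
    ∃ R : Finset ((Fin (e + 1) → ℕ) × (Fin (e + 1) → ℕ)),
        (R.card ≤ ((g (Fin.last e) - g 0) / (univ.gcd fun i => g i - g 0) + 1).choose 2 ∧
          2 * R.card ≤ ((g (Fin.last e) - g 0) / (univ.gcd fun i => g i - g 0)) ^ 2 + e) ∧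
        ∀ a b : Fin (e + 1) → ℕ,
          (addConGen (fun x y => (x, y) ∈ R)) a b ↔
            ∑ i, a i * g i = ∑ i, b i * g i := by
  classical
  have hpos : ∀ i, 0 < g i := fun i => lt_of_lt_of_le hg0 (hg.monotone (Fin.zero_le i))
  rcases Nat.eq_zero_or_pos e with rfl | he
  · refine ⟨∅, ⟨Nat.zero_le _, Nat.zero_le _⟩, ?_⟩
    intro a b
    have h1 : g 0 ≠ 0 := hg0.ne'
    constructor
    · intro h
      have hle : addConGen (fun x y => (x, y) ∈ (∅ : Finset ((Fin (0 + 1) → ℕ) × (Fin (0 + 1) → ℕ))))
          ≤ AddCon.ker (phi g) := by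
        rw [AddCon.addConGen_le]
        intro x y hxy
        simp at hxy
      have := hle h
      rw [AddCon.ker_rel] at this
      exact this
    · intro h
      have hab : a = b := by
        funext i
        have hi : i = 0 := by
          ext
          have := i.isLt
          simp only [Fin.val_zero]
          omega
        subst hi
        rw [Fin.sum_univ_succ, Fin.sum_univ_succ] at h
        simp only [univ_eq_empty, sum_empty, add_zero] at h
        exact Nat.eq_of_mul_eq_mul_right hg0 h
      rw [hab]
      exact AddCon.refl _ _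
  · -- differences
    set D : Fin (e + 1) → ℕ := fun i => g i - g 0 with hD
    have hgle : ∀ i, g 0 ≤ g i := fun i => hg.monotone (Fin.zero_le i)
    set δ := univ.gcd D with hδ
    have hlast : 0 < D (Fin.last e) := by
      have : g 0 < g (Fin.last e) := by
        apply hg
        rw [Fin.lt_def]; simpa using he
      simp only [hD]; omega
    have hδpos : 0 < δ := by
      rcases Nat.eq_zero_or_pos δ with h | h
      · exfalso
        rw [hδ, Finset.gcd_eq_zero_iff] at h
        have := h (Fin.last e) (mem_univ _)
        omega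
      · exact h
    obtain ⟨d, hd1, hd2⟩ := Finset.extract_gcd D (s := univ) ⟨0, mem_univ _⟩
    have hDd : ∀ i, D i = δ * d i := fun i => hd1 i (mem_univ i)
    have hgd : ∀ i, g i = g 0 + δ * d i := by
      intro i
      rw [← hDd i]
      have := hgle i
      simp only [hD]; omega
    have hd0 : d 0 = 0 := by
      have h1 := hDd 0
      simp only [hD, Nat.sub_self] at h1
      rcases Nat.mul_eq_zero.1 h1.symm with h | h
      · omega
      · exact h
    have hdmono : StrictMono d := by
      intro i j hij
      have h1 := hg hij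
      rw [hgd i, hgd j] at h1
      have h2 : δ * d i < δ * d j := by omega
      exact Nat.lt_of_mul_lt_mul_left h2
    obtain ⟨R, hR1, hR2⟩ := presentation g he hpos
    refine ⟨R, ?_, hR2⟩
    have hB := B_bound g d δ he hg0 hgd hdmono hd0 hd2
    have hed := le_of_strictMono d hdmono
    have hw : g (Fin.last e) - g 0 = δ * d (Fin.last e) := by
      rw [hgd (Fin.last e)]; omega
    set w := g (Fin.last e) - g 0 with hwdef
    have hdw : w / δ = d (Fin.last e) := by
      rw [hw]
      exact Nat.mul_div_cancel_left _ hδpos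
    have h0 : 2 * R.card ≤ d (Fin.last e) ^ 2 + e := by
      calc 2 * R.card ≤ e * ((Bset g (hpos 0)).card + 1) := hR1
        _ = e * (Bset g (hpos 0)).card + e := by ring
        _ ≤ d (Fin.last e) ^ 2 + e := Nat.add_le_add hB le_rfl
    have h1 : 2 * R.card ≤ (d (Fin.last e) + 1) * d (Fin.last e) := by
      calc 2 * R.card ≤ d (Fin.last e) ^ 2 + e := h0
        _ ≤ d (Fin.last e) ^ 2 + d (Fin.last e) := Nat.add_le_add le_rfl hed
        _ = (d (Fin.last e) + 1) * d (Fin.last e) := by ring
    rw [hdw]
    refine ⟨?_, h0⟩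
    rw [Nat.choose_two_right]
    simp only [Nat.add_sub_cancel]
    omega

end Pool.Agent.Lib.MPb3fe82
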